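import Pool.Agent.Y104.WL.Stm

/-!
# Project WL: the optimal norm is rational (WL-RAT)
-/

open Finset Module

set_option linter.unusedSectionVars false

universe u

namespace Pool.Agent.Y641.WL

open Pool.Agent.Y104.Kempf Pool.Agent.Y104.WL

/-- There is a rational linear form on the real numbers with value one at one. -/
theorem exists_proj : ∃ π : ℝ →ₗ[ℚ] ℚ, π 1 = 1 := by
  have h0 : Function.Injective (LinearMap.toSpanSingleton ℚ ℝ 1) := by
    intro x y h
    simp only [LinearMap.toSpanSingleton_apply] at h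
    rw [Rat.smul_one_eq_cast, Rat.smul_one_eq_cast] at h
    exact_mod_cast h
  obtain ⟨g, hg⟩ := LinearMap.exists_leftInverse_of_injective _ (LinearMap.ker_eq_bot.2 h0)
  refine ⟨g, ?_⟩
  have := LinearMap.congr_fun hg 1
  simpa using this

/-- The solution of an integral linear system which is orthogonal to all the homogeneous solutions
is rational. -/
theorem rational_of_orth {ι : Type} [Fintype ι] {b : ι → Type} [∀ i, Fintype (b i)]
    (π : ℝ →ₗ[ℚ] ℚ) (l : ∀ j, b j → ℝ) (E : (∀ j, b j → ℝ) → Prop)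
    (hE : E fun j p => (π (l j p) : ℝ) - l j p)
    (hE' : ∀ φ : ℝ →ₗ[ℚ] ℚ, E fun j p => (φ ((π (l j p) : ℝ) - l j p) : ℝ))
    (ho : ∀ y, E y → ∑ j, ∑ p, l j p * y j p = 0) : ∀ j p, l j p = π (l j p) := by
  have h1 : ∑ j, ∑ p, (π (l j p) : ℝ) * ((π (l j p) : ℝ) - l j p) = 0 := by
    rw [← Module.forall_dual_apply_eq_zero_iff ℚ]
    intro φ
    have h2 := congrArg π (ho _ (hE' φ))
    rw [map_zero] at h2
    simp only [map_sum] at h2 ⊢
    rw [← h2]
    refine Finset.sum_congr rfl fun j _ => Finset.sum_congr rfl fun p _ => ?_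
    have e1 : (π (l j p) : ℝ) * ((π (l j p) : ℝ) - l j p) =
        (π (l j p)) • ((π (l j p) : ℝ) - l j p) := by
      rw [Rat.smul_def]
    have e2 : l j p * (φ ((π (l j p) : ℝ) - l j p) : ℝ) =
        (φ ((π (l j p) : ℝ) - l j p)) • l j p := by
      rw [Rat.smul_def, mul_comm]
    rw [e1, e2, map_smul, map_smul, smul_eq_mul, smul_eq_mul, mul_comm]
  have h3 := ho _ hE
  have h4 : ∑ j, ∑ p, ((π (l j p) : ℝ) - l j p) ^ 2 = 0 := by
    have h5 : ∑ j, ∑ p, ((π (l j p) : ℝ) - l j p) ^ 2 =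
        ∑ j, ∑ p, (π (l j p) : ℝ) * ((π (l j p) : ℝ) - l j p) -
          ∑ j, ∑ p, l j p * ((π (l j p) : ℝ) - l j p) := by
      rw [← Finset.sum_sub_distrib]
      refine Finset.sum_congr rfl fun j _ => ?_
      rw [← Finset.sum_sub_distrib]
      refine Finset.sum_congr rfl fun p _ => ?_
      ring
    rw [h5, h1, h3, sub_zero]
  intro j p
  have h6 := (Finset.sum_eq_zero_iff_of_nonneg (fun j _ =>
    Finset.sum_nonneg fun p _ => sq_nonneg _)).1 h4 j (mem_univ j)
  have h7 := (Finset.sum_eq_zero_iff_of_nonneg (fun p _ => sq_nonneg _)).1 h6 p (mem_univ p)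
  rw [pow_eq_zero_iff two_ne_zero, sub_eq_zero] at h7
  exact h7.symm

/-- **The optimal norm is rational.** -/
theorem rat (h : S_OPT.{u}) : S_RAT.{u} := by
  intro ι _ _ b _ _ S _ _ c K _ L _ _ Q N w t hO e he
  have ht := hO.pos
  obtain ⟨hw1, hw2⟩ := hO.adm.1.any he
  have hO' := h ι b S c K L Q N w t hO e he
  -- the norm is one
  have hs : ∑ j, ∑ p, w j (e j p) ^ 2 = 1 := by
    refine le_antisymm hw2 ?_
    have h1 := hO' (fun j p => w j (e j p)) hw1 (fun j p q _ h => h.le) t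
      (fun z _ J _ h => h.le)
    have h2 : ∑ j, ∑ p, w j (e j p) * w j (e j p) = ∑ j, ∑ p, w j (e j p) ^ 2 :=
      Finset.sum_congr rfl fun j _ => Finset.sum_congr rfl fun p _ => by ring
    rw [h2] at h1
    by_contra h3
    rw [not_le] at h3
    nlinarith
  refine ⟨hs, ?_⟩
  obtain ⟨π, hπ⟩ := exists_proj
  -- the linear system
  let E : (∀ j, b j → ℝ) → Prop := fun y => (∀ j, ∑ p, y j p = 0) ∧
    (∀ j p q, Rl Q e j p q → w j (e j p) + w j (e j q) = 0 → y j p + y j q = 0) ∧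
    (∀ z ∈ N, ∀ J : ∀ s, b (c s), ev z (fun s => e (c s) (J s)) ≠ 0 →
      ∑ s, w (c s) (e (c s) (J s)) = -t → ∑ s, y (c s) (J s) = 0)
  set l : ∀ j, b j → ℝ := fun j p => w j (e j p) / t with hl
  have hE : E fun j p => (π (l j p) : ℝ) - l j p := by
    refine ⟨fun j => ?_, fun j p q _ h1 => ?_, fun z _ J _ h1 => ?_⟩
    · have h2 : ∑ p, l j p = 0 := by
        rw [hl]
        simp only
        rw [← Finset.sum_div, hw1 j, zero_div]
      rw [Finset.sum_sub_distrib, h2, sub_zero, ← Rat.cast_sum, ← map_sum, h2, map_zero,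
        Rat.cast_zero]
    · have h2 : l j p + l j q = 0 := by
        rw [hl]
        simp only
        rw [← add_div, h1, zero_div]
      have h3 : (π (l j p) : ℝ) + π (l j q) = 0 := by
        rw [← Rat.cast_add, ← map_add, h2, map_zero, Rat.cast_zero]
      linarith
    · have h2 : ∑ s, l (c s) (J s) = -1 := by
        rw [hl]
        simp only
        rw [← Finset.sum_div, h1, neg_div, div_self ht.ne']
      rw [Finset.sum_sub_distrib, h2, ← Rat.cast_sum, ← map_sum, h2, map_neg, hπ]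
      norm_num
  have hE' : ∀ φ : ℝ →ₗ[ℚ] ℚ, E fun j p => (φ ((π (l j p) : ℝ) - l j p) : ℝ) := by
    intro φ
    obtain ⟨h1, h2, h3⟩ := hE
    refine ⟨fun j => ?_, fun j p q hR h4 => ?_, fun z hz J hJ h4 => ?_⟩
    · rw [← Rat.cast_sum, ← map_sum, h1 j, map_zero, Rat.cast_zero]
    · rw [← Rat.cast_add, ← map_add, h2 j p q hR h4, map_zero, Rat.cast_zero]
    · rw [← Rat.cast_sum, ← map_sum, h3 z hz J hJ h4, map_zero, Rat.cast_zero]
  have ho : ∀ y, E y → ∑ j, ∑ p, l j p * y j p = 0 := by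
    intro y hy
    obtain ⟨h1, h2, h3⟩ := hy
    have h4 := hO' y h1 (fun j p q hR h => (h2 j p q hR h).le) 0
      (fun z hz J hJ h => by rw [h3 z hz J hJ h, neg_zero])
    have h5 := hO' (fun j p => -y j p) (fun j => by rw [Finset.sum_neg_distrib, h1 j, neg_zero])
      (fun j p q hR h => by have := h2 j p q hR h; linarith) 0
      (fun z hz J hJ h => by rw [Finset.sum_neg_distrib, h3 z hz J hJ h])
    have h6 : ∑ j, ∑ p, w j (e j p) * -y j p = -∑ j, ∑ p, w j (e j p) * y j p := by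
      rw [← Finset.sum_neg_distrib]
      refine Finset.sum_congr rfl fun j _ => ?_
      rw [← Finset.sum_neg_distrib]
      refine Finset.sum_congr rfl fun p _ => ?_
      ring
    rw [h6] at h5
    have h7 : ∑ j, ∑ p, w j (e j p) * y j p = 0 := by
      have h8 : t * ∑ j, ∑ p, w j (e j p) * y j p = 0 := by linarith
      exact (mul_eq_zero.1 h8).resolve_left ht.ne'
    have h9 : ∑ j, ∑ p, l j p * y j p = (∑ j, ∑ p, w j (e j p) * y j p) / t := by
      rw [Finset.sum_div]
      refine Finset.sum_congr rfl fun j _ => ?_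
      rw [Finset.sum_div]
      refine Finset.sum_congr rfl fun p _ => ?_
      rw [hl]
      ring
    rw [h9, h7, zero_div]
  have hr := rational_of_orth π l E hE hE' ho
  -- the square of the margin
  have hw' : ∀ j p, w j (e j p) = t * (π (l j p) : ℝ) := by
    intro j p
    rw [← hr j p, hl]
    field_simp
  have h1 : t ^ 2 * ((∑ j, ∑ p, π (l j p) ^ 2 : ℚ) : ℝ) = 1 := by
    rw [← hs]
    push_cast
    rw [Finset.mul_sum]
    refine Finset.sum_congr rfl fun j _ => ?_
    rw [Finset.mul_sum]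
    refine Finset.sum_congr rfl fun p _ => ?_
    rw [hw' j p]
    ring
  intro j p
  refine ⟨π (l j p) / (∑ j, ∑ p, π (l j p) ^ 2 : ℚ), ?_⟩
  have h2 : ((∑ j, ∑ p, π (l j p) ^ 2 : ℚ) : ℝ) ≠ 0 := by
    intro h3
    rw [h3, mul_zero] at h1
    exact zero_ne_one h1
  rw [Rat.cast_div, eq_div_iff h2]
  calc t * w j (e j p) * ((∑ j, ∑ p, π (l j p) ^ 2 : ℚ) : ℝ)
      = (t ^ 2 * ((∑ j, ∑ p, π (l j p) ^ 2 : ℚ) : ℝ)) * π (l j p) := by
        rw [hw' j p]
        ring
    _ = π (l j p) := by rw [h1, one_mul]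

end Pool.Agent.Y641.WL
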